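import Mathlib
import Pool.Agent.R983.Surprise

/-!
# MP_e25d14_pr: disproof of the surprise bound for general reversible chains

The walk on `{0, ..., n}` which moves up with probability `n / (n + 1)` and down with probability
`1 / (n + 1)` (staying put instead of leaving the path) is reversible, its stationary distribution
is proportional to `n ^ i`, and it first reaches `n` from `0` at time exactly `n` with probability
`(n / (n + 1)) ^ n ≥ 1 / e`, while `(1 / n) √(log (1 / π(0))) ≤ (1 / n) √((n + 1) log (n + 1)) → 0`.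
-/

set_option autoImplicit false

open Finset Pool.Agent.R983.Surprise

namespace Pool.Agent.Results.MP_e25d14_pr.BiasedPath

noncomputable section

/-- transition matrix of the biased walk on the path -/
def Pc (n : ℕ) : Matrix (Fin (n + 1)) (Fin (n + 1)) ℝ := fun i j =>
  (if j.val = i.val + 1 then (n : ℝ) / (n + 1) else 0) +
  (if i.val = j.val + 1 then 1 / ((n : ℝ) + 1) else 0) +
  (if j = i then (if i.val = 0 then 1 / ((n : ℝ) + 1) else 0) +
    (if i.val = n then (n : ℝ) / (n + 1) else 0) else 0)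

/-- normalisation -/
def Z (n : ℕ) : ℝ := ∑ i : Fin (n + 1), (n : ℝ) ^ i.val

/-- stationary distribution -/
def pic (n : ℕ) (i : Fin (n + 1)) : ℝ := (n : ℝ) ^ i.val / Z n

theorem Z_pos {n : ℕ} (hn : 1 ≤ n) : 0 < Z n := by
  have : (0:ℝ) < n := by exact_mod_cast hn
  exact Finset.sum_pos (fun i _ => by positivity) Finset.univ_nonempty

theorem Pc_nonneg (n : ℕ) (i j : Fin (n + 1)) : 0 ≤ Pc n i j := by
  unfold Pc
  positivity

theorem sum_up (n : ℕ) (i : Fin (n + 1)) (r : ℝ) :
    ∑ j : Fin (n + 1), (if j.val = i.val + 1 then r else 0) = if i.val = n then 0 else r := by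
  split_ifs with h
  · apply Finset.sum_eq_zero
    intro j _
    rw [if_neg]
    have := j.isLt
    omega
  · have hlt : i.val + 1 < n + 1 := by have := i.isLt; omega
    rw [Finset.sum_eq_single (⟨i.val + 1, hlt⟩ : Fin (n + 1))]
    · simp
    · intro j _ hj
      rw [if_neg]
      intro h2
      exact hj (Fin.ext h2)
    · intro h2; exact absurd (Finset.mem_univ _) h2

theorem sum_down (n : ℕ) (i : Fin (n + 1)) (r : ℝ) :
    ∑ j : Fin (n + 1), (if i.val = j.val + 1 then r else 0) = if i.val = 0 then 0 else r := by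
  split_ifs with h
  · apply Finset.sum_eq_zero
    intro j _
    rw [if_neg]
    omega
  · have hlt : i.val - 1 < n + 1 := by have := i.isLt; omega
    rw [Finset.sum_eq_single (⟨i.val - 1, hlt⟩ : Fin (n + 1))]
    · rw [if_pos]; show i.val = (i.val - 1) + 1; omega
    · intro j _ hj
      rw [if_neg]
      intro h2
      apply hj
      apply Fin.ext
      show j.val = i.val - 1
      omega
    · intro h2; exact absurd (Finset.mem_univ _) h2

theorem Pc_row {n : ℕ} (i : Fin (n + 1)) : ∑ j, Pc n i j = 1 := by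
  unfold Pc
  rw [Finset.sum_add_distrib, Finset.sum_add_distrib, sum_up, sum_down,
    Finset.sum_ite_eq' Finset.univ i, if_pos (Finset.mem_univ i)]
  have hn : ((n : ℝ) + 1) ≠ 0 := by positivity
  have h1 : (n : ℝ) / (n + 1) + 1 / (n + 1) = 1 := by field_simp
  split_ifs <;> linarith

theorem up_val {n : ℕ} {i j : Fin (n + 1)} (h : i.val < j.val) :
    Pc n i j = if j.val = i.val + 1 then (n : ℝ) / (n + 1) else 0 := by
  have hne : ¬ j = i := by intro h2; rw [h2] at h; exact lt_irrefl _ h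
  have h2 : ¬ (i.val = j.val + 1) := by omega
  unfold Pc
  rw [if_neg hne, if_neg h2, add_zero, add_zero]

theorem down_val {n : ℕ} {i j : Fin (n + 1)} (h : i.val < j.val) :
    Pc n j i = if j.val = i.val + 1 then 1 / ((n : ℝ) + 1) else 0 := by
  have hne : ¬ i = j := by intro h2; rw [h2] at h; exact lt_irrefl _ h
  have h2 : ¬ (i.val = j.val + 1) := by omega
  unfold Pc
  rw [if_neg hne, if_neg h2, add_zero, zero_add]

theorem isChain {n : ℕ} (hn : 1 ≤ n) : IsReversibleChain (Pc n) (pic n) := by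
  have hn0 : (0:ℝ) < n := by exact_mod_cast hn
  have hZ := Z_pos hn
  refine ⟨Pc_nonneg n, Pc_row, fun i => by unfold pic; positivity, ?_, ?_⟩
  · unfold pic
    rw [← Finset.sum_div]
    exact div_self hZ.ne'
  · have key : ∀ i j : Fin (n + 1), i.val < j.val → pic n i * Pc n i j = pic n j * Pc n j i := by
      intro i j hij
      rw [up_val hij, down_val hij]
      unfold pic
      by_cases h2 : j.val = i.val + 1
      · rw [if_pos h2, if_pos h2, h2, pow_succ]
        field_simp
      · rw [if_neg h2, if_neg h2]; simp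
    intro i j
    rcases lt_trichotomy i.val j.val with h | h | h
    · exact key i j h
    · have : i = j := Fin.ext h
      subst this; rfl
    · exact (key j i h).symm

theorem pow_pos_trans {n : ℕ} {a b c : Fin (n + 1)} {k l : ℕ} (h1 : 0 < (Pc n ^ k) a b)
    (h2 : 0 < (Pc n ^ l) b c) : 0 < (Pc n ^ (k + l)) a c := by
  have hnn : ∀ k a b, 0 ≤ (Pc n ^ k) a b := by
    intro k
    induction k with
    | zero => intro a b; rw [pow_zero, Matrix.one_apply]; split_ifs <;> norm_num
    | succ k ih =>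
      intro a b
      rw [pow_succ', Matrix.mul_apply]
      exact Finset.sum_nonneg fun w _ => mul_nonneg (Pc_nonneg _ _ _) (ih _ _)
  rw [pow_add, Matrix.mul_apply]
  exact Finset.sum_pos' (fun w _ => mul_nonneg (hnn _ _ _) (hnn _ _ _))
    ⟨b, Finset.mem_univ b, mul_pos h1 h2⟩

theorem irreducible {n : ℕ} (hn : 1 ≤ n) (u v : Fin (n + 1)) : ∃ m : ℕ, 0 < (Pc n ^ m) u v := by
  have hn0 : (0:ℝ) < n := by exact_mod_cast hn
  have hup : ∀ (k : ℕ) (a b : Fin (n + 1)), b.val = a.val + k → ∃ m : ℕ, 0 < (Pc n ^ m) a b := by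
    intro k
    induction k with
    | zero =>
      intro a b hab
      have : a = b := Fin.ext (by omega)
      subst this
      exact ⟨0, by simp⟩
    | succ k ih =>
      intro a b hab
      have hlt : a.val + 1 < n + 1 := by have := b.isLt; omega
      obtain ⟨m, hm⟩ := ih ⟨a.val + 1, hlt⟩ b (by show b.val = a.val + 1 + k; omega)
      refine ⟨1 + m, pow_pos_trans ?_ hm⟩
      rw [pow_one]
      unfold Pc
      rw [if_pos rfl]
      positivity
  have hdown : ∀ (k : ℕ) (a b : Fin (n + 1)), a.val = b.val + k → ∃ m : ℕ, 0 < (Pc n ^ m) a b := by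
    intro k
    induction k with
    | zero =>
      intro a b hab
      have : a = b := Fin.ext (by omega)
      subst this
      exact ⟨0, by simp⟩
    | succ k ih =>
      intro a b hab
      have hlt : a.val - 1 < n + 1 := by have := a.isLt; omega
      obtain ⟨m, hm⟩ := ih ⟨a.val - 1, hlt⟩ b (by show a.val - 1 = b.val + k; omega)
      refine ⟨1 + m, pow_pos_trans ?_ hm⟩
      rw [pow_one]
      unfold Pc
      rw [if_pos (show a.val = (a.val - 1) + 1 by omega)]
      positivity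
  rcases le_total u.val v.val with h | h
  · exact hup (v.val - u.val) u v (by omega)
  · exact hdown (u.val - v.val) u v (by omega)

theorem hit_nonneg (n : ℕ) (y : Fin (n + 1)) (t : ℕ) (x : Fin (n + 1)) :
    0 ≤ hit (Pc n) y t x := by
  induction t generalizing x with
  | zero => rw [hit]; split_ifs <;> norm_num
  | succ t ih =>
    rw [hit]
    split_ifs
    · exact le_rfl
    · exact Finset.sum_nonneg fun z _ => mul_nonneg (Pc_nonneg _ _ _) (ih z)

theorem hit_ge (n : ℕ) (k : ℕ) (hk : k ≤ n) (a : Fin (n + 1)) (ha : a.val + k = n) :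
    ((n : ℝ) / (n + 1)) ^ k ≤ hit (Pc n) (Fin.last n) k a := by
  induction k generalizing a with
  | zero =>
    have : a = Fin.last n := Fin.ext (by simpa using ha)
    rw [hit, if_pos this]; simp
  | succ k ih =>
    have hne : a ≠ Fin.last n := by
      intro h
      rw [h] at ha
      simp at ha
    rw [hit, if_neg hne]
    have hlt : a.val + 1 < n + 1 := by omega
    have h1 := ih (by omega) ⟨a.val + 1, hlt⟩ (by show a.val + 1 + k = n; omega)
    have h2 : Pc n a ⟨a.val + 1, hlt⟩ * hit (Pc n) (Fin.last n) k ⟨a.val + 1, hlt⟩ ≤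
        ∑ z, Pc n a z * hit (Pc n) (Fin.last n) k z :=
      Finset.single_le_sum (f := fun z => Pc n a z * hit (Pc n) (Fin.last n) k z)
        (fun z _ => mul_nonneg (Pc_nonneg _ _ _) (hit_nonneg _ _ _ _)) (Finset.mem_univ _)
    refine le_trans ?_ h2
    have h3 : (n : ℝ) / (n + 1) ≤ Pc n a ⟨a.val + 1, hlt⟩ := by
      unfold Pc
      rw [if_pos rfl]
      have : (0:ℝ) ≤ (if a.val = (⟨a.val + 1, hlt⟩ : Fin (n + 1)).val + 1 then
          1 / ((n : ℝ) + 1) else 0) := by positivity
      have : (0:ℝ) ≤ (if (⟨a.val + 1, hlt⟩ : Fin (n + 1)) = a then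
        (if a.val = 0 then 1 / ((n : ℝ) + 1) else 0) +
        (if a.val = n then (n : ℝ) / (n + 1) else 0) else 0) := by positivity
      linarith
    rw [pow_succ']
    exact mul_le_mul h3 h1 (by positivity) (Pc_nonneg _ _ _)

theorem log_Z_le {n : ℕ} (hn : 1 ≤ n) :
    Real.log (1 / pic n 0) ≤ (n + 1) * Real.log (n + 1) := by
  have hn0 : (1:ℝ) ≤ n := by exact_mod_cast hn
  have hZ := Z_pos hn
  have h1 : 1 / pic n 0 = Z n := by simp [pic]
  rw [h1]
  have h2 : Z n ≤ ((n:ℝ) + 1) ^ (n + 1) := by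
    have h3 : Z n ≤ ∑ _i : Fin (n + 1), ((n:ℝ) + 1) ^ n := by
      refine Finset.sum_le_sum fun i _ => ?_
      calc (n:ℝ) ^ i.val ≤ ((n:ℝ) + 1) ^ i.val := pow_le_pow_left₀ (by linarith) (by linarith) _
        _ ≤ ((n:ℝ) + 1) ^ n := pow_le_pow_right₀ (by linarith) (by have := i.isLt; omega)
    refine h3.trans (le_of_eq ?_)
    rw [Finset.sum_const, Finset.card_univ, Fintype.card_fin, nsmul_eq_mul, pow_succ]
    push_cast; ring
  have h4 := Real.log_le_log hZ h2
  rw [Real.log_pow] at h4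
  push_cast at h4
  exact h4

/-- **Disproof of Q1 of MP_e25d14_pr.** -/
theorem result : ∀ C : ℝ, ∃ (n : ℕ) (P : Matrix (Fin (n + 1)) (Fin (n + 1)) ℝ)
    (π : Fin (n + 1) → ℝ), IsReversibleChain P π ∧ (∀ u v, ∃ m : ℕ, 0 < (P ^ m) u v) ∧
    ∃ (x y : Fin (n + 1)) (t : ℕ), 1 ≤ t ∧
      C / t * Real.sqrt (max 1 (Real.log (1 / π x))) < hit P y t x := by
  intro C
  obtain ⟨m, hm⟩ := exists_nat_gt (9 * |C| + 1)
  have hCabs := abs_nonneg C
  have hm1 : (1:ℝ) < m := by linarith
  have hm0 : (0:ℝ) < m := by linarith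
  have hmn : 1 ≤ m := by exact_mod_cast hm1.le
  set n := m ^ 4 with hn
  have hn1 : 1 ≤ n := Nat.one_le_pow _ _ hmn
  have hncast : (n:ℝ) = (m:ℝ) ^ 4 := by rw [hn]; push_cast; rfl
  have hn0 : (0:ℝ) < n := by rw [hncast]; positivity
  refine ⟨n, Pc n, pic n, isChain hn1, irreducible hn1, 0, Fin.last n, n, hn1, ?_⟩
  -- lower bound of the hitting probability
  have h1 := hit_ge n n le_rfl 0 (by simp)
  have h2 : 1 / 3 < ((n : ℝ) / (n + 1)) ^ n := by
    have h3 : (1 + 1 / (n:ℝ)) ^ n ≤ Real.exp 1 := by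
      have h4 := Real.add_one_le_exp (1 / (n:ℝ))
      have h5 : (1 + 1 / (n:ℝ)) ^ n ≤ Real.exp (1 / (n:ℝ)) ^ n :=
        pow_le_pow_left₀ (by positivity) (by linarith) n
      rw [← Real.exp_nat_mul, mul_one_div_cancel hn0.ne'] at h5
      exact h5
    have h6 : ((n : ℝ) / (n + 1)) ^ n * (1 + 1 / (n:ℝ)) ^ n = 1 := by
      rw [← mul_pow]
      have : (n : ℝ) / (n + 1) * (1 + 1 / (n:ℝ)) = 1 := by field_simp
      rw [this, one_pow]
    have h7 : Real.exp 1 < 3 := by have := Real.exp_one_lt_d9; linarith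
    have h8 : 0 < (1 + 1 / (n:ℝ)) ^ n := by positivity
    by_contra hcon
    push Not at hcon
    have h9 : ((n : ℝ) / (n + 1)) ^ n * (1 + 1 / (n:ℝ)) ^ n ≤ 1 / 3 * (1 + 1 / (n:ℝ)) ^ n :=
      mul_le_mul_of_nonneg_right hcon h8.le
    rw [h6] at h9
    linarith
  refine lt_of_le_of_lt ?_ (lt_of_lt_of_le h2 h1)
  -- upper bound of the right-hand side
  have hlog : Real.log ((n:ℝ) + 1) ≤ 2 * (m:ℝ) ^ 2 := by
    have hs : Real.sqrt ((n:ℝ) + 1) ≤ (m:ℝ) ^ 2 + 1 := by
      rw [Real.sqrt_le_left (by positivity), hncast]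
      nlinarith [sq_nonneg ((m:ℝ))]
    have hp : (0:ℝ) < (n:ℝ) + 1 := by positivity
    have hsp : 0 < Real.sqrt ((n:ℝ) + 1) := Real.sqrt_pos.mpr hp
    have h10 := Real.log_le_sub_one_of_pos hsp
    rw [Real.log_sqrt hp.le] at h10
    linarith
  have hmax : max 1 (Real.log (1 / pic n 0)) ≤ (3 * (m:ℝ) ^ 3) ^ 2 := by
    have hm6 : (1:ℝ) ≤ (m:ℝ) ^ 6 := one_le_pow₀ hm1.le
    have hm2 : (1:ℝ) ≤ (m:ℝ) ^ 2 := one_le_pow₀ hm1.le
    have hm4 : (1:ℝ) ≤ (m:ℝ) ^ 4 := one_le_pow₀ hm1.le
    apply max_le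
    · nlinarith
    · refine (log_Z_le hn1).trans ?_
      have h11 : ((n:ℝ) + 1) * Real.log ((n:ℝ) + 1) ≤ ((m:ℝ) ^ 4 + 1) * (2 * (m:ℝ) ^ 2) := by
        rw [hncast] at hlog ⊢
        exact mul_le_mul_of_nonneg_left hlog (by positivity)
      refine h11.trans ?_
      nlinarith [mul_nonneg (sub_nonneg.mpr hm4) (sq_nonneg (m:ℝ))]
  have hsqrt : Real.sqrt (max 1 (Real.log (1 / pic n 0))) ≤ 3 * (m:ℝ) ^ 3 := by
    rw [Real.sqrt_le_left (by positivity)]
    exact hmax
  calc C / (n:ℝ) * Real.sqrt (max 1 (Real.log (1 / pic n 0)))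
      ≤ |C| / (n:ℝ) * Real.sqrt (max 1 (Real.log (1 / pic n 0))) := by
        apply mul_le_mul_of_nonneg_right _ (Real.sqrt_nonneg _)
        exact div_le_div_of_nonneg_right (le_abs_self C) hn0.le
    _ ≤ |C| / (n:ℝ) * (3 * (m:ℝ) ^ 3) :=
        mul_le_mul_of_nonneg_left hsqrt (by positivity)
    _ = 3 * |C| / m := by rw [hncast]; field_simp
    _ ≤ 1 / 3 := by
        rw [div_le_div_iff₀ hm0 (by norm_num)]
        linarith

end

end Pool.Agent.Results.MP_e25d14_pr.BiasedPath
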