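import Mathlib
import Pool.Agent.R983.Surprise

/-!
# MP_e25d14_pr: the surprise bound holds for chains with holding probabilities

If every holding probability `P(z, z)` of a finite reversible chain is at least `δ` then
`𝐏_x(τ(y) = t) ≤ (3 / (δ t)) √(max(1, log (1 / π(x))))`. In particular the bound of the question
holds, with an absolute constant, for all lazy chains (`δ = 1/2`).

Proof. Write `P = δ I + (1 - δ) R`, let `f_s` be the density w.r.t. `π` of the chain started at `x`
and killed at `y`, and `g_r(u) = 𝐏_u(τ(y) > r)`. For every `s + r = t - 1` the probability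
`𝐏_x(τ(y) = t)` equals the Dirichlet form of `f_s` and `g_r`. Sum over `s` and use Cauchy-Schwarz:
the sum over `s` of the energies of `√(1 + f_s)` is bounded by the initial entropy, which is of
order `log (1 / π(x))`, and the weighted energies of the `g_r` telescope, since `g_{t-s}(X_s)` is a
martingale.
-/

set_option autoImplicit false

open Pool.Agent.R983.Surprise

namespace Pool.Agent.Results.MP_e25d14_pr.HoldingBound

/-- **The surprise bound for reversible chains with holding probabilities at least `δ`.** -/
theorem result {S : Type*} [Fintype S] [DecidableEq S] (P : Matrix S S ℝ) (π : S → ℝ)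
    (h : IsReversibleChain P π) (δ : ℝ) (hδ0 : 0 < δ) (hδ : ∀ z, δ ≤ P z z) (x y : S) (t : ℕ)
    (ht : 1 ≤ t) :
    hit P y t x ≤ 3 / (δ * t) * Real.sqrt (max 1 (Real.log (1 / π x))) := by
  obtain ⟨n, rfl⟩ : ∃ n, t = n + 1 := ⟨t - 1, by omega⟩
  rcases lt_or_ge δ 1 with h1 | h1
  · have := main h hδ0 h1 hδ x y n
    push_cast
    exact this
  · -- all holding probabilities are one: nothing moves
    have hP : ∀ z w, z ≠ w → P z w = 0 := by
      intro z w hzw
      have h2 : P z z + P z w ≤ ∑ v, P z v := by
        rw [← Finset.sum_pair hzw]
        exact Finset.sum_le_sum_of_subset_of_nonneg (Finset.subset_univ _)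
          fun v _ _ => h.nonneg z v
      rw [h.row z] at h2
      have := h.nonneg z w
      have := hδ z
      linarith
    have hzero : ∀ (k : ℕ) (z : S), z ≠ y → hit P y k z = 0 := by
      intro k
      induction k with
      | zero => intro z hz; rw [hit, if_neg hz]
      | succ k ih =>
        intro z hz
        rw [hit, if_neg hz]
        apply Finset.sum_eq_zero
        intro w _
        by_cases hw : w = z
        · rw [hw, ih z hz, mul_zero]
        · rw [hP z w (Ne.symm hw), zero_mul]
    by_cases hxy : x = y
    · rw [hit, if_pos hxy]; positivity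
    · rw [hzero _ x hxy]; positivity

end Pool.Agent.Results.MP_e25d14_pr.HoldingBound
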